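import Mathlib
import Pool.Agent.Lib.MP_2c654c_co.Syl.Psl

set_option autoImplicit false

namespace Pool.Agent.Results.MP_2c654c_co.FourInvolutions

open Pool.Agent.Lib.MP_2c654c_co

/-- The Cayley table of `G` has a latin square root square: square roots `τ g` of the left
multiplications can be chosen so that every column has pairwise distinct entries. -/
def HasLatinRoot (G : Type) [Group G] : Prop :=
  ∃ τ : G → Equiv.Perm G,
    (∀ g : G, τ g * τ g = Equiv.mulLeft g) ∧ ∀ x : G, Function.Injective (fun g : G => τ g x)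

/-- Every element of `G` is a product of at most `W` commutators. -/
def CommWidth (G : Type) [Group G] (W : ℕ) : Prop :=
  ∀ g : G, ∃ l : List (G × G), l.length ≤ W ∧
    g = (l.map fun p => p.1 * p.2 * p.1⁻¹ * p.2⁻¹).prod

theorem result (W : ℕ) : ∃ D : ℕ, ∀ (G : Type) [Group G] [Finite G],
    (∀ N : Subgroup G, N.Normal → N ≠ ⊤ → D ≤ N.index) → CommWidth G W →
    (∀ g : G, 8 ≤ Nat.card (Subgroup.centralizer ({g} : Set G))) →
    ∀ P : Subgroup G, IsPGroup 2 P → 4 ≤ {t : G | t ∈ P ∧ orderOf t = 2}.ncard →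
    (∀ g : G, g ≠ 1 →
      D * Nat.card (Subgroup.centralizer (P : Set G)) ≤ {x : G | IsConj g x}.ncard) →
    HasLatinRoot G :=
  Syl.criterion' W

/-- The hypotheses are checked (with `W = 4`) for `PSL(2, q)` with `q ≡ ±1 mod 8` large. -/
theorem psl_two : ∃ N : ℕ, ∀ (F : Type) [Field F] [Fintype F], N ≤ Fintype.card F →
    (Fintype.card F % 8 = 1 ∨ Fintype.card F % 8 = 7) →
    HasLatinRoot (Matrix.ProjectiveSpecialLinearGroup (Fin 2) F) :=
  Syl.psl2

end Pool.Agent.Results.MP_2c654c_co.FourInvolutions
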