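import Mathlib
import Pool.Agent.Lib.MP_2c654c_co.Main

set_option autoImplicit false

namespace Pool.Agent.Results.MP_2c654c_co.Linear

open Pool.Agent.Lib.MP_2c654c_co

/-- The Cayley table of `G` has a latin square root square: square roots `τ g` of the left
multiplications can be chosen so that every column has pairwise distinct entries. -/
def HasLatinRoot (G : Type) [Group G] : Prop :=
  ∃ τ : G → Equiv.Perm G,
    (∀ g : G, τ g * τ g = Equiv.mulLeft g) ∧ ∀ x : G, Function.Injective (fun g : G => τ g x)

/-- `G` is a finite group of units of an algebra `A` over a finite field `K` of characteristic 2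
with at least 32 elements, `G` contains every unipotent element of `A`, and `Q` is a quotient of
`G` by a group of scalars. -/
theorem result (K A G Q : Type) [Field K] [Finite K] [CharP K 2] [Ring A] [Algebra K A]
    [Group G] [Finite G] [Group Q] (hK : 32 ≤ Nat.card K)
    (ι : G →* A) (hι : Function.Injective ι)
    (hG : ∀ u : A, IsNilpotent (u - 1) → ∃ g : G, ι g = u)
    (π : G →* Q) (hπ : Function.Surjective π)
    (hZ : ∀ z : G, π z = 1 → ∃ c : K, ι z = algebraMap K A c) : HasLatinRoot Q := by
  have : Finite Q := Finite.of_surjective π hπ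
  refine root_of_sys (sys_of_blocks (blocks_quot π hπ (fun z hz => ?_) (fun z hz => ?_)
    (blocks_lin hK ι hι hG)))
  · obtain ⟨c, hc⟩ := hZ z hz
    exact (od_scalar ι hι hc).1
  · obtain ⟨c, hc⟩ := hZ z hz
    exact (od_scalar ι hι hc).2

/-! The four classical families are instances of `result`. -/

section
variable (K : Type) [Field K] [Finite K] [CharP K 2] (n : ℕ) (hK : 32 ≤ Nat.card K)
include hK

theorem gl : HasLatinRoot (GL (Fin n) K) :=
  result K (Matrix (Fin n) (Fin n) K) _ _ hK (Units.coeHom _) Units.val_injective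
    (fun _ hu => unit_of_unip hu) (MonoidHom.id _) Function.surjective_id
    (fun z hz => ⟨1, by rw [show z = 1 from hz, map_one, map_one]⟩)

theorem sl : HasLatinRoot (Matrix.SpecialLinearGroup (Fin n) K) :=
  result K (Matrix (Fin n) (Fin n) K) _ _ hK Matrix.SpecialLinearGroup.coeMonoidHom
    Matrix.SpecialLinearGroup.coeMonoidHom_injective (fun u hu => ⟨⟨u, det_unip hu⟩, rfl⟩)
    (MonoidHom.id _) Function.surjective_id
    (fun z hz => ⟨1, by rw [show z = 1 from hz, map_one, map_one]⟩)

theorem pgl : HasLatinRoot (Matrix.ProjGenLinGroup (Fin n) K) :=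
  result K (Matrix (Fin n) (Fin n) K) (GL (Fin n) K) _ hK (Units.coeHom _) Units.val_injective
    (fun _ hu => unit_of_unip hu) (QuotientGroup.mk' (Subgroup.center _))
    (QuotientGroup.mk'_surjective _) (fun z hz => by
      obtain ⟨c, hc⟩ := Matrix.GeneralLinearGroup.mem_center_iff_val_mem_range_scalar.1
        ((QuotientGroup.eq_one_iff z).1 hz)
      exact ⟨c, hc.symm⟩)

theorem psl : HasLatinRoot (Matrix.ProjectiveSpecialLinearGroup (Fin n) K) :=
  result K (Matrix (Fin n) (Fin n) K) (Matrix.SpecialLinearGroup (Fin n) K) _ hK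
    Matrix.SpecialLinearGroup.coeMonoidHom Matrix.SpecialLinearGroup.coeMonoidHom_injective
    (fun u hu => ⟨⟨u, det_unip hu⟩, rfl⟩) (QuotientGroup.mk' (Subgroup.center _))
    (QuotientGroup.mk'_surjective _) (fun z hz => by
      obtain ⟨c, -, hc⟩ := Matrix.SpecialLinearGroup.mem_center_iff.1
        ((QuotientGroup.eq_one_iff z).1 hz)
      exact ⟨c, hc.symm⟩)

end

end Pool.Agent.Results.MP_2c654c_co.Linear
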