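import Mathlib
import Pool.Agent.Lib.MP_2c654c_co.Abs.Alt

set_option autoImplicit false

namespace Pool.Agent.Results.MP_2c654c_co.Quasirandom

open Pool.Agent.Lib.MP_2c654c_co

/-- The Cayley table of `G` has a latin square root square: square roots `τ g` of the left
multiplications can be chosen so that every column has pairwise distinct entries. -/
def HasLatinRoot (G : Type) [Group G] : Prop :=
  ∃ τ : G → Equiv.Perm G,
    (∀ g : G, τ g * τ g = Equiv.mulLeft g) ∧ ∀ x : G, Function.Injective (fun g : G => τ g x)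

/-- Every real representation of `G` of dimension less than `D` is trivial. -/
def NoSmallRep (G : Type) [Group G] (D : ℕ) : Prop :=
  ∀ d : ℕ, d < D → ∀ ρ : Representation ℝ G (Fin d → ℝ), ∀ g : G, ρ g = 1

/-- Every element of `G` is a product of at most `W` commutators. -/
def CommWidth (G : Type) [Group G] (W : ℕ) : Prop :=
  ∀ g : G, ∃ l : List (G × G), l.length ≤ W ∧
    g = (l.map fun p => p.1 * p.2 * p.1⁻¹ * p.2⁻¹).prod

/-- There is a set `K`, either `{1}` or a Klein four-group `{1, a, b, a * b}` centralised by an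
involution `t` outside it, such that every `g` whose conjugacy class has an odd number of elements
outside `K` is a square. -/
def ParityOK (G : Type) [Group G] : Prop :=
  ∃ K : Set G, (K = {1} ∨ ∃ a b t : G, a * a = 1 ∧ b * b = 1 ∧ t * t = 1 ∧ a * b = b * a ∧
    a * t = t * a ∧ b * t = t * b ∧ a ≠ 1 ∧ b ≠ 1 ∧ a ≠ b ∧ K = {1, a, b, a * b} ∧ t ∉ K) ∧
    ∀ g : G, Odd ({x | IsConj g x} \ K).ncard → ∃ r : G, g = r * r

theorem result (W : ℕ) : ∃ D : ℕ, ∀ (G : Type) [Group G] [Finite G], NoSmallRep G D →
    Subgroup.center G = ⊥ → CommWidth G W →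
    (∀ g : G, 8 ≤ Nat.card (Subgroup.centralizer ({g} : Set G))) → ParityOK G →
    HasLatinRoot G :=
  Abs.criterion W

/-- All large alternating groups are instances of `result` (with `W = 4`). -/
theorem alternating : ∃ N : ℕ, ∀ n : ℕ, N ≤ n → HasLatinRoot (alternatingGroup (Fin n)) := by
  obtain ⟨D, H⟩ := result 4
  refine ⟨2 ^ (D + 2) + 19, fun n h => ?_⟩
  have h1 : 19 ≤ n := le_trans (Nat.le_add_left _ _) h
  have h2 : 2 ^ (D + 2) ≤ n := le_trans (Nat.le_add_right _ _) h
  exact H _ (Abs.qr_alt (by simpa using by omega) (by simpa using h2))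
    (alternatingGroup.center_eq_bot (by simpa using by omega))
    (Abs.cw_alt (by simpa using by omega)) (Abs.cent_alt (by simpa using h1))
    (Abs.par_alt (by simpa using by omega))

end Pool.Agent.Results.MP_2c654c_co.Quasirandom
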